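import Mathlib

set_option autoImplicit false

open MeasureTheory
open scoped ENNReal

/-!
# The set `L₁ + L_∞` and its norm
-/

namespace Pool.Agent.R279.LSum

universe u

/-- `x = u + v` almost everywhere, with `u` in `L₁` and `v` in `L_∞` -/
def Rep {Ω : Type u} [MeasurableSpace Ω] (μ : Measure Ω) (x : Ω →ₘ[μ] ℝ) (u : Lp ℝ 1 μ)
    (v : Lp ℝ ∞ μ) : Prop :=
  x = (u : Ω →ₘ[μ] ℝ) + (v : Ω →ₘ[μ] ℝ)

/-- the infimum of `‖u‖_1 + ‖v‖_∞` over all `u` in `L₁` and `v` in `L_∞` with `x = u + v` -/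
noncomputable def nrm {Ω : Type u} [MeasurableSpace Ω] (μ : Measure Ω) (x : Ω →ₘ[μ] ℝ) : ℝ :=
  sInf {r : ℝ | ∃ (u : Lp ℝ 1 μ) (v : Lp ℝ ∞ μ), Rep μ x u v ∧ r = ‖u‖ + ‖v‖}

end Pool.Agent.R279.LSum
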