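import Mathlib
import Pool.Agent.R279.LSum.Rep

set_option autoImplicit false

open MeasureTheory Filter Topology Set
open scoped ENNReal

/-!
# The norm of `L₁ + L_∞`: proofs
-/

namespace Pool.Agent.R279.LSum

universe u

variable {Ω : Type u} [MeasurableSpace Ω] {μ : Measure Ω}

lemma Rep.add {x y : Ω →ₘ[μ] ℝ} {u u' : Lp ℝ 1 μ} {v v' : Lp ℝ ∞ μ} (h : Rep μ x u v)
    (h' : Rep μ y u' v') : Rep μ (x + y) (u + u') (v + v') := by
  unfold Rep at *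
  rw [h, h', AddSubgroup.coe_add, AddSubgroup.coe_add]
  abel

lemma Rep.smul {x : Ω →ₘ[μ] ℝ} {u : Lp ℝ 1 μ} {v : Lp ℝ ∞ μ} (c : ℝ) (h : Rep μ x u v) :
    Rep μ (c • x) (c • u) (c • v) := by
  unfold Rep at *
  rw [h, smul_add]; rfl

lemma Rep.zero : Rep μ (0 : Ω →ₘ[μ] ℝ) 0 0 := by
  unfold Rep
  rw [AddSubgroup.coe_zero, AddSubgroup.coe_zero, add_zero]

lemma bdd (x : Ω →ₘ[μ] ℝ) :
    BddBelow {r : ℝ | ∃ (u : Lp ℝ 1 μ) (v : Lp ℝ ∞ μ), Rep μ x u v ∧ r = ‖u‖ + ‖v‖} := by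
  refine ⟨0, ?_⟩
  rintro r ⟨u, v, -, rfl⟩
  positivity

lemma nrm_le {x : Ω →ₘ[μ] ℝ} {u : Lp ℝ 1 μ} {v : Lp ℝ ∞ μ} (h : Rep μ x u v) :
    nrm μ x ≤ ‖u‖ + ‖v‖ := csInf_le (bdd x) ⟨u, v, h, rfl⟩

lemma nrm_nonneg (x : Ω →ₘ[μ] ℝ) : 0 ≤ nrm μ x := by
  refine Real.sInf_nonneg ?_
  rintro r ⟨u, v, -, rfl⟩
  positivity

lemma exists_rep {x : Ω →ₘ[μ] ℝ} (hx : ∃ u v, Rep μ x u v) {ε : ℝ} (hε : 0 < ε) :
    ∃ u v, Rep μ x u v ∧ ‖u‖ + ‖v‖ < nrm μ x + ε := by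
  obtain ⟨u0, v0, h0⟩ := hx
  obtain ⟨r, ⟨u, v, h, rfl⟩, hr⟩ := exists_lt_of_csInf_lt
    (s := {r : ℝ | ∃ (u : Lp ℝ 1 μ) (v : Lp ℝ ∞ μ), Rep μ x u v ∧ r = ‖u‖ + ‖v‖})
    ⟨_, u0, v0, h0, rfl⟩ (lt_add_of_pos_right (nrm μ x) hε)
  exact ⟨u, v, h, hr⟩

lemma nrm_add {x y : Ω →ₘ[μ] ℝ} (hx : ∃ u v, Rep μ x u v) (hy : ∃ u v, Rep μ y u v) :
    nrm μ (x + y) ≤ nrm μ x + nrm μ y := by
  refine le_of_forall_pos_le_add fun ε hε => ?_
  obtain ⟨u, v, h, h1⟩ := exists_rep hx (half_pos hε)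
  obtain ⟨u', v', h', h1'⟩ := exists_rep hy (half_pos hε)
  have := nrm_le (h.add h')
  have h2 := norm_add_le u u'
  have h3 := norm_add_le v v'
  linarith

lemma nrm_smul_le {x : Ω →ₘ[μ] ℝ} (hx : ∃ u v, Rep μ x u v) (c : ℝ) :
    nrm μ (c • x) ≤ |c| * nrm μ x := by
  refine le_of_forall_pos_le_add fun ε hε => ?_
  obtain ⟨u, v, h, h1⟩ := exists_rep hx (ε := ε / (|c| + 1)) (by positivity)
  refine (nrm_le (h.smul c)).trans ?_
  rw [norm_smul, norm_smul, ← mul_add, Real.norm_eq_abs]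
  have h2 : |c| * (ε / (|c| + 1)) ≤ ε := by
    rw [mul_div_assoc', div_le_iff₀ (by positivity)]
    nlinarith [abs_nonneg c]
  calc |c| * (‖u‖ + ‖v‖) ≤ |c| * (nrm μ x + ε / (|c| + 1)) := by gcongr
    _ = |c| * nrm μ x + |c| * (ε / (|c| + 1)) := by ring
    _ ≤ _ := by linarith

lemma nrm_zero : nrm μ (0 : Ω →ₘ[μ] ℝ) = 0 := by
  refine le_antisymm ?_ (nrm_nonneg _)
  have := nrm_le (Rep.zero (μ := μ))
  rwa [norm_zero, norm_zero, add_zero] at this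

lemma nrm_smul {x : Ω →ₘ[μ] ℝ} (hx : ∃ u v, Rep μ x u v) (c : ℝ) :
    nrm μ (c • x) = |c| * nrm μ x := by
  rcases eq_or_ne c 0 with hc | hc
  · rw [hc, zero_smul, nrm_zero, abs_zero, zero_mul]
  refine le_antisymm (nrm_smul_le hx c) ?_
  obtain ⟨u, v, h⟩ := hx
  have h1 := nrm_smul_le (x := c • x) ⟨_, _, h.smul c⟩ c⁻¹
  rw [smul_smul, inv_mul_cancel₀ hc, one_smul, abs_inv] at h1
  have h2 : 0 < |c| := abs_pos.mpr hc
  calc |c| * nrm μ x ≤ |c| * (|c|⁻¹ * nrm μ (c • x)) := by gcongr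
    _ = nrm μ (c • x) := by field_simp

lemma eq_zero_of_nrm {x : Ω →ₘ[μ] ℝ} (hx : ∃ u v, Rep μ x u v) (h : nrm μ x = 0) : x = 0 := by
  -- for every `c > 0` the set where `|x| > c` is a null set
  have key : ∀ c : ℝ, 0 < c → μ {ω | c ≤ |x ω|} = 0 := by
    intro c hc
    refine le_antisymm ?_ bot_le
    refine ENNReal.le_of_forall_pos_le_add fun δ hδ _ => ?_
    rw [zero_add]
    obtain ⟨u, v, hr, h1⟩ := exists_rep hx (ε := min (c / 2) (c / 2 * δ)) (by positivity)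
    rw [h, zero_add] at h1
    have hv : ‖v‖ < c / 2 := by
      have := (lt_min_iff.mp h1).1
      linarith [norm_nonneg u]
    have hu : ‖u‖ ≤ c / 2 * δ := by
      have := (lt_min_iff.mp h1).2
      linarith [norm_nonneg v]
    have h2 : μ {ω | c ≤ |x ω|} ≤ μ {ω | c / 2 ≤ |u ω|} := by
      refine measure_mono_ae ?_
      have e1 : (x : Ω → ℝ) =ᵐ[μ] fun ω => u ω + v ω := by
        unfold Rep at hr
        rw [hr]
        exact AEEqFun.coeFn_add _ _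
      have e2 : ∀ᵐ ω ∂μ, |v ω| ≤ ‖v‖ := by
        have h1 := ae_le_eLpNormEssSup (f := (v : Ω → ℝ)) (μ := μ)
        have h2 : eLpNormEssSup (v : Ω → ℝ) μ ≠ ∞ := by
          rw [← eLpNorm_exponent_top]; exact Lp.eLpNorm_ne_top v
        filter_upwards [h1] with x hx
        rw [Lp.norm_def, eLpNorm_exponent_top]
        have := ENNReal.toReal_mono h2 hx
        rwa [toReal_enorm] at this
      filter_upwards [e1, e2] with ω h3 h4 h5
      change c / 2 ≤ |u ω|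
      change c ≤ |x ω| at h5
      rw [h3] at h5
      have := abs_add_le (u ω) (v ω)
      linarith
    refine h2.trans ?_
    have h3 := Lp.mul_meas_ge_le_pow_enorm' u (by norm_num : (1 : ℝ≥0∞) ≠ 0) (by norm_num)
      (ENNReal.ofReal (c / 2))
    have e3 : {x | ENNReal.ofReal (c / 2) ≤ (‖u x‖₊ : ℝ≥0∞)} = {x | c / 2 ≤ |u x|} := by
      ext x
      simp only [mem_ofPred_eq]
      rw [← enorm_eq_nnnorm, Real.enorm_eq_ofReal_abs, ENNReal.ofReal_le_ofReal_iff (abs_nonneg _)]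
    rw [e3] at h3
    simp only [ENNReal.toReal_one, ENNReal.rpow_one] at h3
    have h4 : ENNReal.ofReal (c / 2) * μ {x | c / 2 ≤ |u x|} ≤ ENNReal.ofReal (c / 2) * δ := by
      refine h3.trans ?_
      rw [← ENNReal.ofReal_coe_nnreal (p := δ), ← ENNReal.ofReal_mul (by positivity)]
      exact ENNReal.ofReal_le_ofReal hu
    exact (ENNReal.mul_le_mul_iff_right (by positivity) ENNReal.ofReal_ne_top).mp h4
  refine AEEqFun.ext ?_
  have h3 : ∀ᵐ ω ∂μ, ∀ n : ℕ, |x ω| < 1 / (n + 1) := by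
    rw [ae_all_iff]
    intro n
    have := key (1 / (n + 1)) (by positivity)
    rw [ae_iff]
    simp only [not_lt]
    exact this
  filter_upwards [h3, AEEqFun.coeFn_zero (α := Ω) (β := ℝ) (μ := μ)] with ω h4 h5
  rw [h5]
  change x ω = 0
  rw [← abs_eq_zero]
  refine le_antisymm (le_of_forall_pos_le_add fun ε hε => ?_) (abs_nonneg _)
  obtain ⟨n, hn⟩ := exists_nat_one_div_lt hε
  rw [zero_add]
  exact ((h4 n).trans hn).le

end Pool.Agent.R279.LSum
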