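import Mathlib
import Pool.Agent.R279.LSum.Rep
import Pool.Agent.R279.LSum.Lem

set_option autoImplicit false

open MeasureTheory
open scoped ENNReal

/-!
# The normed space `L₁ + L_∞`
-/

namespace Pool.Agent.R279.LSum

universe u

variable {Ω : Type u} [MeasurableSpace Ω] (μ : Measure Ω)

/-- the subspace of all sums `u + v` in the space of classes of measurable functions -/
def sub : Submodule ℝ (Ω →ₘ[μ] ℝ) where
  carrier := {x | ∃ (u : Lp ℝ 1 μ) (v : Lp ℝ ∞ μ), Rep μ x u v}
  add_mem' := fun ⟨_, _, h⟩ ⟨_, _, h'⟩ => ⟨_, _, h.add h'⟩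
  zero_mem' := ⟨0, 0, Rep.zero⟩
  smul_mem' := fun c _ ⟨_, _, h⟩ => ⟨_, _, h.smul c⟩

/-- the space `L₁ + L_∞` -/
def Space : Type u := sub μ

noncomputable instance : AddCommGroup (Space μ) := Submodule.addCommGroup (sub μ)

noncomputable instance : Module ℝ (Space μ) := Submodule.module (sub μ)

/-- the norm: the infimum of `‖u‖_1 + ‖v‖_∞` over all decompositions -/
noncomputable instance : Norm (Space μ) := ⟨fun x => nrm μ x.1⟩

theorem core : NormedSpace.Core ℝ (Space μ) where
  norm_nonneg x := nrm_nonneg x.1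
  norm_smul c x := nrm_smul x.2 c
  norm_triangle x y := nrm_add x.2 y.2
  norm_eq_zero_iff x := ⟨fun h => Subtype.ext (eq_zero_of_nrm x.2 h), fun h => by
    rw [h]; exact nrm_zero⟩

noncomputable instance : NormedAddCommGroup (Space μ) := NormedAddCommGroup.ofCore (core μ)

noncomputable instance : NormedSpace ℝ (Space μ) := NormedSpace.ofCore (core μ)

end Pool.Agent.R279.LSum
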