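import Mathlib
import Pool.Agent.R279.LSum.Defs
import Pool.Agent.R279.HS.E

set_option autoImplicit false
set_option maxSynthPendingDepth 3

open MeasureTheory Filter Topology Set
open scoped ENNReal

/-!
# `L₁ + L_∞` is not a dual space
-/

namespace Pool.Agent.R279.LSum

open Pool.Agent.R279.HS

universe u v

/-! ## splitting on the line -/

lemma split_real (ν : Measure ℝ) [NullSingletonClass ν] : Split ν := by
  intro A hA hpos
  by_contra hcon
  push Not at hcon
  have h1 : ∀ q : ℝ, ν (A ∩ Iio q) = 0 ∨ ν (A \ Iio q) = 0 := by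
    intro q
    by_cases h : ν (A ∩ Iio q) = 0
    · exact Or.inl h
    · right
      have := hcon (A ∩ Iio q) inter_subset_left (hA.inter measurableSet_Iio) h
      rwa [sdiff_self_inter] at this
  set S : Set ℝ := {q | ν (A ∩ Iio q) = 0} with hS
  have hne : S.Nonempty := by
    by_contra hemp
    rw [not_nonempty_iff_eq_empty] at hemp
    apply hpos
    have h2 : A ⊆ ⋃ n : ℕ, A \ Iio (-(n:ℝ)) := by
      intro x hx
      obtain ⟨n, hn⟩ := exists_nat_ge (-x)
      exact mem_iUnion.mpr ⟨n, hx, by simp only [mem_Iio, not_lt]; linarith⟩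
    refine measure_mono_null h2 (measure_iUnion_null fun n => ?_)
    rcases h1 (-(n:ℝ)) with h | h
    · exact absurd (show (-(n:ℝ)) ∈ S from h) (by rw [hemp]; exact fun h => h)
    · exact h
  have hbdd : BddAbove S := by
    by_contra hunb
    rw [not_bddAbove_iff] at hunb
    apply hpos
    have h2 : A ⊆ ⋃ n : ℕ, A ∩ Iio (n:ℝ) := by
      intro x hx
      obtain ⟨n, hn⟩ := exists_nat_gt x
      exact mem_iUnion.mpr ⟨n, hx, hn⟩
    refine measure_mono_null h2 (measure_iUnion_null fun n => ?_)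
    obtain ⟨q, hq, hnq⟩ := hunb n
    exact measure_mono_null (inter_subset_inter_right _ (Iio_subset_Iio hnq.le)) hq
  set c := sSup S with hc
  apply hpos
  have hL : ν (A ∩ Iio c) = 0 := by
    have h2 : A ∩ Iio c ⊆ ⋃ n : ℕ, A ∩ Iio (c - 1 / (n + 1)) := by
      rintro x ⟨hx, hxc⟩
      have hxc' : (0:ℝ) < c - x := sub_pos.mpr hxc
      obtain ⟨n, hn⟩ := exists_nat_one_div_lt hxc'
      exact mem_iUnion.mpr ⟨n, hx, by simp only [mem_Iio]; linarith⟩
    refine measure_mono_null h2 (measure_iUnion_null fun n => ?_)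
    have h3 : c - 1 / ((n:ℝ) + 1) < c := by
      have : (0:ℝ) < 1 / ((n:ℝ) + 1) := by positivity
      linarith
    obtain ⟨q, hq, hcq⟩ := exists_lt_of_lt_csSup hne h3
    exact measure_mono_null (inter_subset_inter_right _ (Iio_subset_Iio hcq.le)) hq
  have hR : ν (A ∩ Ioi c) = 0 := by
    have h2 : A ∩ Ioi c ⊆ ⋃ n : ℕ, A \ Iio (c + 1 / (n + 1)) := by
      rintro x ⟨hx, hxc⟩
      have hxc' : (0:ℝ) < x - c := sub_pos.mpr hxc
      obtain ⟨n, hn⟩ := exists_nat_one_div_lt hxc'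
      exact mem_iUnion.mpr ⟨n, hx, by simp only [mem_Iio, not_lt]; linarith⟩
    refine measure_mono_null h2 (measure_iUnion_null fun n => ?_)
    rcases h1 (c + 1 / (n + 1)) with h | h
    · have h4 := le_csSup hbdd (show (c + 1 / ((n:ℝ) + 1)) ∈ S from h)
      have : (0:ℝ) < 1 / ((n:ℝ) + 1) := by positivity
      linarith
    · exact h
  have h5 : A ⊆ (A ∩ Iio c) ∪ (A ∩ Ioi c) ∪ {c} := by
    intro x hx
    rcases lt_trichotomy x c with h | h | h
    · exact Or.inl (Or.inl ⟨hx, h⟩)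
    · exact Or.inr h
    · exact Or.inl (Or.inr ⟨hx, h⟩)
  exact measure_mono_null h5 (measure_union_null (measure_union_null hL hR) (measure_singleton c))

/-! ## the maps -/

variable {Ω : Type u} [MeasurableSpace Ω] {μ : Measure Ω}

lemma norm_def (w : Space μ) : ‖w‖ = nrm μ w.1 := rfl

lemma rep1 (u : Lp ℝ 1 μ) : Rep μ (u : Ω →ₘ[μ] ℝ) u 0 := by
  unfold Rep; rw [AddSubgroup.coe_zero, add_zero]

lemma rep2 (v : Lp ℝ ∞ μ) : Rep μ (v : Ω →ₘ[μ] ℝ) 0 v := by
  unfold Rep; rw [AddSubgroup.coe_zero, zero_add]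

/-- the embedding of `L₁` -/
noncomputable def i1 (μ : Measure Ω) : Lp ℝ 1 μ →L[ℝ] Space μ :=
  LinearMap.mkContinuous
    { toFun := fun u => (⟨(u : Ω →ₘ[μ] ℝ), u, 0, rep1 u⟩ : sub μ)
      map_add' := fun _ _ => rfl
      map_smul' := fun _ _ => rfl } 1 (fun u => by
        rw [one_mul]
        refine (nrm_le (rep1 u)).trans ?_
        rw [norm_zero, add_zero])

/-- the embedding of `L_∞` -/
noncomputable def i2 (μ : Measure Ω) : Lp ℝ ∞ μ →L[ℝ] Space μ :=
  LinearMap.mkContinuous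
    { toFun := fun v => (⟨(v : Ω →ₘ[μ] ℝ), 0, v, rep2 v⟩ : sub μ)
      map_add' := fun _ _ => rfl
      map_smul' := fun _ _ => rfl } 1 (fun v => by
        rw [one_mul]
        refine (nrm_le (rep2 v)).trans ?_
        rw [norm_zero, zero_add])

lemma i1_norm (u : Lp ℝ 1 μ) : ‖i1 μ u‖ ≤ ‖u‖ := by
  refine (nrm_le (rep1 u)).trans ?_
  rw [norm_zero, add_zero]

lemma i_sum (w : Space μ) : ∃ u v, w = i1 μ u + i2 μ v := by
  obtain ⟨u, v, h⟩ := w.2
  exact ⟨u, v, Subtype.ext h⟩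

lemma L1_norm (u : Lp ℝ 1 μ) : ‖u‖ = ∫ x, |u x| ∂μ := by
  rw [L1.norm_eq_integral_norm]; rfl

/-- integrability on sets of finite measure -/
lemma int_bound {s : Set Ω} (hfin : μ s ≠ ∞) (w : Space μ) :
    Integrable (w.1 : Ω → ℝ) (μ.restrict s) ∧
      ∫ x, |w.1 x| ∂(μ.restrict s) ≤ (1 + (μ s).toReal) * ‖w‖ := by
  have key : ∀ u v, Rep μ w.1 u v → Integrable (w.1 : Ω → ℝ) (μ.restrict s) ∧
      ∫ x, |w.1 x| ∂(μ.restrict s) ≤ (1 + (μ s).toReal) * (‖u‖ + ‖v‖) := by
    intro u v h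
    have e1 : (w.1 : Ω → ℝ) =ᵐ[μ.restrict s] fun x => u x + v x := by
      refine ae_restrict_of_ae ?_
      unfold Rep at h
      rw [h]
      exact AEEqFun.coeFn_add _ _
    have hu : Integrable (u : Ω → ℝ) μ := L1.integrable_coeFn u
    have hu' : Integrable (u : Ω → ℝ) (μ.restrict s) := hu.integrableOn
    have hvb : ∀ᵐ x ∂(μ.restrict s), ‖v x‖ ≤ ‖v‖ := ae_restrict_of_ae (linf_ae_le v)
    have hfs : IsFiniteMeasure (μ.restrict s) := ⟨by
      rw [Measure.restrict_apply_univ]; exact lt_top_iff_ne_top.mpr hfin⟩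
    have hv' : Integrable (v : Ω → ℝ) (μ.restrict s) :=
      Integrable.of_bound (Lp.aestronglyMeasurable v).restrict ‖v‖ hvb
    refine ⟨(hu'.add hv').congr e1.symm, ?_⟩
    have e2 : ∫ x, |w.1 x| ∂(μ.restrict s) ≤ ∫ x, (|u x| + |v x|) ∂(μ.restrict s) := by
      refine integral_mono_ae ((hu'.add hv').congr e1.symm).abs (hu'.abs.add hv'.abs) ?_
      filter_upwards [e1] with x hx
      rw [hx]; exact abs_add_le _ _
    have e3 : ∫ x, (|u x| + |v x|) ∂(μ.restrict s) = ∫ x, |u x| ∂(μ.restrict s) + ∫ x, |v x| ∂(μ.restrict s) :=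
      integral_add hu'.abs hv'.abs
    have e4 : ∫ x, |u x| ∂(μ.restrict s) ≤ ‖u‖ := by
      rw [L1_norm]
      exact setIntegral_le_integral hu.abs (Filter.Eventually.of_forall fun x => abs_nonneg _)
    have e5 : ∫ x, |v x| ∂(μ.restrict s) ≤ (μ s).toReal * ‖v‖ := by
      calc ∫ x, |v x| ∂(μ.restrict s) ≤ ∫ x, ‖v‖ ∂(μ.restrict s) :=
            integral_mono_ae hv'.abs (integrable_const _) hvb
        _ = (μ s).toReal * ‖v‖ := by
            rw [integral_const, smul_eq_mul, Measure.real, Measure.restrict_apply_univ]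
    rw [e3] at e2
    have h6 : (0:ℝ) ≤ (μ s).toReal := ENNReal.toReal_nonneg
    nlinarith [norm_nonneg u, norm_nonneg v, mul_nonneg h6 (norm_nonneg u)]
  obtain ⟨u0, v0, h0⟩ := w.2
  refine ⟨(key u0 v0 h0).1, ?_⟩
  refine le_of_forall_pos_le_add fun ε hε => ?_
  have hpos : (0:ℝ) < 1 + (μ s).toReal := by positivity
  obtain ⟨u, v, h, hlt⟩ := exists_rep ⟨u0, v0, h0⟩ (div_pos hε hpos)
  refine (key u v h).2.trans ?_
  rw [norm_def]
  calc (1 + (μ s).toReal) * (‖u‖ + ‖v‖) ≤ (1 + (μ s).toReal) * (nrm μ w.1 + ε / (1 + (μ s).toReal)) := by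
        gcongr
    _ = (1 + (μ s).toReal) * nrm μ w.1 + ε := by field_simp

lemma coe_add_ae (w w' : Space μ) : ((w + w').1 : Ω → ℝ) =ᵐ[μ] fun x => w.1 x + w'.1 x :=
  AEEqFun.coeFn_add w.1 w'.1

lemma coe_smul_ae (c : ℝ) (w : Space μ) : ((c • w).1 : Ω → ℝ) =ᵐ[μ] fun x => c * w.1 x :=
  AEEqFun.coeFn_smul c w.1

/-- integration over a set of finite measure -/
noncomputable def ig (μ : Measure Ω) {s : Set Ω} (hfin : μ s ≠ ∞) (B : Set Ω) : StrongDual ℝ (Space μ) :=
  LinearMap.mkContinuous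
    { toFun := fun w => ∫ x in B, w.1 x ∂(μ.restrict s)
      map_add' := fun w w' => by
        rw [← integral_add (int_bound hfin w).1.integrableOn (int_bound hfin w').1.integrableOn]
        exact integral_congr_ae (ae_restrict_of_ae (ae_restrict_of_ae (coe_add_ae w w')))
      map_smul' := fun c w => by
        rw [RingHom.id_apply, smul_eq_mul, ← integral_const_mul]
        exact integral_congr_ae (ae_restrict_of_ae (ae_restrict_of_ae (coe_smul_ae c w))) }
    (1 + (μ s).toReal) (fun w => by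
      refine le_trans ?_ (int_bound hfin w).2
      refine (norm_integral_le_integral_norm _).trans ?_
      exact setIntegral_le_integral (int_bound hfin w).1.norm
        (Filter.Eventually.of_forall fun x => norm_nonneg _))

lemma ig_apply {s : Set Ω} (hfin : μ s ≠ ∞) (B : Set Ω) (w : Space μ) :
    ig μ hfin B w = ∫ x in B, w.1 x ∂(μ.restrict s) := rfl

lemma ig_sum {s : Set Ω} (hfin : μ s ≠ ∞) {I : Type} [Fintype I] (B : I → Set Ω)
    (hB : ∀ i, MeasurableSet (B i)) (hd : Pairwise (Function.onFun Disjoint B)) (ε : I → ℝ)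
    (hε : ∀ i, |ε i| ≤ 1) (w : Space μ) :
    |∑ i, ε i * ig μ hfin (B i) w| ≤ (1 + (μ s).toReal) * ‖w‖ := by
  have hint := (int_bound hfin w).1
  calc |∑ i, ε i * ig μ hfin (B i) w| ≤ ∑ i, |ε i * ig μ hfin (B i) w| := Finset.abs_sum_le_sum_abs _ _
    _ ≤ ∑ i, ∫ x in B i, |w.1 x| ∂(μ.restrict s) := by
        refine Finset.sum_le_sum fun i _ => ?_
        rw [abs_mul]
        calc |ε i| * |ig μ hfin (B i) w| ≤ 1 * |ig μ hfin (B i) w| := by gcongr; exact hε i
          _ = |∫ x in B i, w.1 x ∂(μ.restrict s)| := by rw [one_mul, ig_apply]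
          _ ≤ _ := abs_integral_le_integral_abs
    _ = ∫ x in ⋃ i, B i, |w.1 x| ∂(μ.restrict s) := by
        rw [integral_iUnion_fintype hB hd fun i => hint.abs.integrableOn]
    _ ≤ ∫ x, |w.1 x| ∂(μ.restrict s) :=
        setIntegral_le_integral hint.abs (Filter.Eventually.of_forall fun x => abs_nonneg _)
    _ ≤ _ := (int_bound hfin w).2

lemma ext_mem {s : Set Ω} (hs : MeasurableSet s) (hfin : μ s ≠ ∞) (f : Lp ℝ 2 (μ.restrict s)) :
    MemLp (s.indicator (f : Ω → ℝ)) 1 μ := by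
  have hfs : IsFiniteMeasure (μ.restrict s) := ⟨by
    rw [Measure.restrict_apply_univ]; exact lt_top_iff_ne_top.mpr hfin⟩
  rw [memLp_indicator_iff_restrict hs]
  exact (Lp.memLp f).mono_exponent (by norm_num)

/-- extension by zero -/
noncomputable def ext0 {s : Set Ω} (hs : MeasurableSet s) (hfin : μ s ≠ ∞) :
    Lp ℝ 2 (μ.restrict s) →ₗ[ℝ] Lp ℝ 1 μ where
  toFun f := (ext_mem hs hfin f).toLp _
  map_add' f g := by
    rw [← MemLp.toLp_add]
    refine MemLp.toLp_congr _ _ ?_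
    have h := (ae_restrict_iff' hs).mp (Lp.coeFn_add f g)
    filter_upwards [h] with x hx
    by_cases hxs : x ∈ s
    · simp only [indicator_of_mem hxs, Pi.add_apply, hx hxs]
    · simp only [indicator_of_notMem hxs, Pi.add_apply, add_zero]
  map_smul' c f := by
    rw [RingHom.id_apply, ← MemLp.toLp_const_smul]
    refine MemLp.toLp_congr _ _ ?_
    have h := (ae_restrict_iff' hs).mp (Lp.coeFn_smul c f)
    filter_upwards [h] with x hx
    by_cases hxs : x ∈ s
    · simp only [indicator_of_mem hxs, Pi.smul_apply, hx hxs]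
    · simp only [indicator_of_notMem hxs, Pi.smul_apply, smul_zero]

lemma ext0_ae {s : Set Ω} (hs : MeasurableSet s) (hfin : μ s ≠ ∞) (f : Lp ℝ 2 (μ.restrict s)) :
    (ext0 hs hfin f : Ω → ℝ) =ᵐ[μ] s.indicator (f : Ω → ℝ) := MemLp.coeFn_toLp (ext_mem hs hfin f)

lemma ext0_norm {s : Set Ω} (hs : MeasurableSet s) (hfin : μ s ≠ ∞) (f : Lp ℝ 2 (μ.restrict s)) :
    ‖ext0 hs hfin f‖ = ∫ x, |f x| ∂(μ.restrict s) := by
  rw [L1_norm]
  have h1 : (fun x => |ext0 hs hfin f x|) =ᵐ[μ] s.indicator fun x => |f x| := by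
    filter_upwards [ext0_ae hs hfin f] with x hx
    rw [hx]
    by_cases hxs : x ∈ s
    · rw [indicator_of_mem hxs, indicator_of_mem hxs]
    · rw [indicator_of_notMem hxs, indicator_of_notMem hxs, abs_zero]
  rw [integral_congr_ae h1, integral_indicator hs]

lemma L2_bound {ν : Measure Ω} [IsFiniteMeasure ν] (f : Lp ℝ 2 ν) :
    ∫ x, |f x| ∂ν ≤ ‖indicatorConstLp 2 MeasurableSet.univ (measure_ne_top ν univ) (1:ℝ)‖ * ‖f‖ := by
  have h1 : MemLp (fun x => |f x|) 2 ν := (Lp.memLp f).abs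
  set g : Lp ℝ 2 ν := h1.toLp _ with hg
  have hgn : ‖g‖ = ‖f‖ := by
    rw [hg, Lp.norm_toLp, Lp.norm_def]
    congr 1
    exact eLpNorm_congr_norm_ae (Filter.Eventually.of_forall fun x => by simp)
  have h2 := L2.inner_indicatorConstLp_one (𝕜 := ℝ) MeasurableSet.univ (measure_ne_top ν univ) g
  rw [Measure.restrict_univ] at h2
  have h3 : ∫ x, |f x| ∂ν = ∫ x, g x ∂ν := integral_congr_ae h1.coeFn_toLp.symm
  rw [h3, ← h2, ← hgn]
  exact real_inner_le_norm _ _

/-- **Theorem** -/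
theorem not_dual (s : Set Ω) (hs : MeasurableSet s) (hfin : μ s ≠ ∞) (hpos : μ s ≠ 0)
    (hsplit : Split (μ.restrict s)) [SecondCountableTopology (Lp ℝ 1 μ)]
    (Z : Type v) [NormedAddCommGroup Z] [NormedSpace ℝ Z] :
    IsEmpty (Space μ ≃L[ℝ] StrongDual ℝ Z) := by
  refine ⟨fun T => ?_⟩
  classical
  have hfs : IsFiniteMeasure (μ.restrict s) := ⟨by
    rw [Measure.restrict_apply_univ]; exact lt_top_iff_ne_top.mpr hfin⟩
  let e : Lp ℝ 2 (μ.restrict s) →L[ℝ] Lp ℝ 1 μ := LinearMap.mkContinuous (ext0 hs hfin)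
    ‖indicatorConstLp 2 MeasurableSet.univ (measure_ne_top (μ.restrict s) univ) (1:ℝ)‖ (fun f => by
      rw [ext0_norm]; exact L2_bound f)
  have he : ∀ f, e f = ext0 hs hfin f := fun f => rfl
  let D : Dat (μ.restrict s) Z :=
    { J := (T : Space μ →L[ℝ] StrongDual ℝ Z).comp ((i1 μ).comp e)
      K := ‖(T : Space μ →L[ℝ] StrongDual ℝ Z)‖
      hK := fun f => by
        change ‖(T : Space μ →L[ℝ] StrongDual ℝ Z) (i1 μ (e f))‖ ≤ _
        refine (ContinuousLinearMap.le_opNorm _ _).trans ?_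
        refine mul_le_mul_of_nonneg_left ?_ (norm_nonneg _)
        refine (i1_norm _).trans ?_
        rw [he, ext0_norm]
      β := fun B => (ig μ hfin B).comp (T.symm : StrongDual ℝ Z →L[ℝ] Space μ)
      hβ := fun B hB f => by
        change ig μ hfin B (T.symm (T (i1 μ (e f)))) = _
        rw [T.symm_apply_apply, ig_apply]
        have h1 : ((i1 μ (e f)).1 : Ω → ℝ) =ᵐ[μ] s.indicator (f : Ω → ℝ) := ext0_ae hs hfin f
        refine integral_congr_ae (ae_restrict_of_ae ((ae_restrict_iff' hs).mpr ?_))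
        filter_upwards [h1] with x hx hxs
        rw [hx, indicator_of_mem hxs]
      C := (1 + (μ s).toReal) * ‖(T.symm : StrongDual ℝ Z →L[ℝ] Space μ)‖
      hC := fun I _ B hB hd ε hε => by
        refine ContinuousLinearMap.opNorm_le_bound _ (by positivity) fun z => ?_
        have h1 := ig_sum hfin B hB hd ε hε (T.symm z)
        have h2 : (∑ i, ε i • (ig μ hfin (B i)).comp (T.symm : StrongDual ℝ Z →L[ℝ] Space μ)) z =
            ∑ i, ε i * ig μ hfin (B i) (T.symm z) := by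
          rw [sum_apply]; rfl
        rw [h2, Real.norm_eq_abs]
        refine h1.trans ?_
        rw [mul_assoc]
        refine mul_le_mul_of_nonneg_left ?_ (by positivity)
        exact (T.symm : StrongDual ℝ Z →L[ℝ] Space μ).le_opNorm z }
  obtain ⟨x, ρ, C, h1, h2⟩ := masses D hsplit (by rwa [Measure.restrict_apply_univ])
  refine sum_false (μ := μ) ((T : Space μ →L[ℝ] StrongDual ℝ Z).comp (i1 μ))
    ((T : Space μ →L[ℝ] StrongDual ℝ Z).comp (i2 μ)) (fun w => ?_) x ρ C h1 h2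
  obtain ⟨u, v, h⟩ := i_sum (T.symm w)
  refine ⟨u, v, ?_⟩
  change w = T (i1 μ u) + T (i2 μ v)
  rw [← map_add, ← h, T.apply_symm_apply]

end Pool.Agent.R279.LSum
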